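import Pool.Agent.H947R2.TP.Stubs

/-!
# B3: tiling groups are discrete and finitely generated
-/

set_option autoImplicit false

open MeasureTheory Filter Topology Set
open scoped ENNReal

namespace H947TP

namespace B3aux

theorem zero_of_lt {D : ℕ} (L : AddSubgroup (Fin D → ℝ)) (hL : IsTile L) (v : Fin D → ℝ)
    (hv : v ∈ L) (h : ∀ i, |v i| < 1) : v = 0 := by
  obtain ⟨u, -, hu⟩ := hL (fun i => max 0 (v i))
  have h1 : v = u := by
    refine hu v ⟨hv, fun i => ⟨le_max_right _ _, ?_⟩⟩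
    have h2 := abs_lt.1 (h i)
    rw [max_lt_iff]
    exact ⟨by linarith [h2.1], by linarith⟩
  have h2 : (0 : Fin D → ℝ) = u := by
    refine hu 0 ⟨L.zero_mem, fun i => ⟨le_max_left _ _, ?_⟩⟩
    have h3 := abs_lt.1 (h i)
    rw [max_lt_iff]
    simp only [Pi.zero_apply, zero_add]
    exact ⟨by norm_num, h3.2⟩
  rw [h1, ← h2]

theorem finite {D : ℕ} (L : AddSubgroup (Fin D → ℝ)) (hL : IsTile L) (R : ℝ) :
    {v | v ∈ L ∧ ∀ i, |v i| ≤ R}.Finite := by
  obtain ⟨N, hN⟩ := exists_nat_ge R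
  refine Set.Finite.of_finite_image (f := fun (v : Fin D → ℝ) (i : Fin D) => ⌊v i⌋) ?_ ?_
  · refine (Set.finite_Icc (fun _ : Fin D => -(N : ℤ)) (fun _ => (N : ℤ))).subset ?_
    rintro _ ⟨v, ⟨-, hv⟩, rfl⟩
    rw [Set.mem_Icc, Pi.le_def, Pi.le_def]
    refine ⟨fun i => ?_, fun i => ?_⟩
    · have h1 := abs_le.1 (hv i)
      rw [Int.le_floor]
      push_cast
      linarith [h1.1]
    · have h1 := abs_le.1 (hv i)
      have h2 := Int.floor_le (v i)
      have h3 : ((⌊v i⌋ : ℤ) : ℝ) ≤ (N : ℤ) := by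
        push_cast
        linarith [h1.2]
      exact_mod_cast h3
  · intro u hu v hv huv
    have h1 : u - v = 0 := by
      refine zero_of_lt L hL _ (L.sub_mem hu.1 hv.1) fun i => ?_
      have h2 : ⌊u i⌋ = ⌊v i⌋ := congrFun huv i
      exact Int.abs_sub_lt_one_of_floor_eq_floor h2
    exact sub_eq_zero.1 h1

theorem fg {D : ℕ} (L : AddSubgroup (Fin D → ℝ)) (hL : IsTile L) : L.FG := by
  have hdisc : DiscreteTopology (AddSubgroup.toIntSubmodule L) := by
    refine DiscreteTopology.of_forall_le_norm (r := 1) one_pos fun x hx => ?_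
    by_contra hcon
    push Not at hcon
    apply hx
    apply Subtype.ext
    refine zero_of_lt L hL x.1 x.2 fun i => ?_
    have h1 := norm_le_pi_norm x.1 i
    rw [Real.norm_eq_abs] at h1
    exact h1.trans_lt hcon
  have h1 : Module.Finite ℤ (AddSubgroup.toIntSubmodule L) := inferInstance
  have h2 := Module.Finite.iff_fg.1 h1
  rw [Submodule.fg_iff_addSubgroup_fg, AddSubgroup.toIntSubmodule_toAddSubgroup] at h2
  exact h2

end B3aux

theorem B3 : St_B3 := fun _ L hL =>
  ⟨B3aux.fg L hL, B3aux.finite L hL, fun v hv h => B3aux.zero_of_lt L hL v hv h⟩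

end H947TP
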