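import Pool.Agent.H947R2.TP.Stubs

/-!
# C5: every order loses at least `μ`
-/

set_option autoImplicit false

open MeasureTheory Filter Topology Set
open scoped ENNReal

namespace H947TP

namespace C5aux

variable {D n : ℕ} (b : Fin D → Fin n) (σ : Fin D ≃ Fin D)

/-- fraction of block `j` before time `t` -/
noncomputable def fr (j : Fin n) (t : ℕ) : ℝ :=
  ((Finset.univ.filter (fun l => b l = j ∧ (σ l : ℕ) < t)).card : ℝ) / cnt b j

/-- the supremum of the statement -/
noncomputable def Mk (k : Fin D) : ℝ :=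
  ⨆ j : {j : Fin n // j ≠ b k}, (before b σ k j : ℝ) / cnt b j

theorem before_eq (k : Fin D) (j : Fin n) :
    (before b σ k j : ℝ) / cnt b j = fr b σ j (σ k : ℕ) := rfl

theorem fr_nonneg (j : Fin n) (t : ℕ) : 0 ≤ fr b σ j t := by
  unfold fr
  positivity

theorem fr_le_one (j : Fin n) (t : ℕ) : fr b σ j t ≤ 1 := by
  unfold fr
  refine div_le_one_of_le₀ ?_ (Nat.cast_nonneg _)
  rw [Nat.cast_le]
  unfold cnt
  exact Finset.card_le_card fun l hl => by
    rw [Finset.mem_filter] at hl ⊢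
    exact ⟨hl.1, hl.2.1⟩

theorem fr_zero (j : Fin n) : fr b σ j 0 = 0 := by
  unfold fr
  simp

theorem fr_last (j : Fin n) (hj : 1 ≤ cnt b j) : fr b σ j D = 1 := by
  unfold fr
  have h1 : (Finset.univ.filter (fun l => b l = j ∧ (σ l : ℕ) < D)) =
      Finset.univ.filter (fun l => b l = j) := by
    refine Finset.filter_congr fun l _ => ?_
    simp [(σ l).2]
  rw [h1]
  unfold cnt at hj ⊢
  refine div_self ?_
  rw [Nat.cast_ne_zero]
  omega

theorem fr_succ_ne (k : Fin D) (j : Fin n) (hj : j ≠ b k) :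
    fr b σ j ((σ k : ℕ) + 1) = fr b σ j (σ k : ℕ) := by
  unfold fr
  congr 2
  refine congrArg Finset.card (Finset.filter_congr fun l _ => ?_)
  constructor
  · rintro ⟨h1, h2⟩
    refine ⟨h1, lt_of_le_of_ne (Nat.lt_succ_iff.1 h2) fun h3 => ?_⟩
    have h4 : l = k := σ.injective (Fin.ext h3)
    rw [h4] at h1
    exact hj h1.symm
  · rintro ⟨h1, h2⟩
    exact ⟨h1, by omega⟩

theorem fr_succ_eq (k : Fin D) :
    fr b σ (b k) ((σ k : ℕ) + 1) = fr b σ (b k) (σ k : ℕ) + 1 / cnt b (b k) := by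
  unfold fr
  have h1 : (Finset.univ.filter (fun l => b l = b k ∧ (σ l : ℕ) < (σ k : ℕ) + 1)) =
      insert k (Finset.univ.filter (fun l => b l = b k ∧ (σ l : ℕ) < (σ k : ℕ))) := by
    ext l
    simp only [Finset.mem_filter, Finset.mem_univ, true_and, Finset.mem_insert]
    constructor
    · rintro ⟨h2, h3⟩
      rcases Nat.lt_succ_iff_lt_or_eq.1 h3 with h4 | h4
      · exact Or.inr ⟨h2, h4⟩
      · exact Or.inl (σ.injective (Fin.ext h4))
    · rintro (rfl | ⟨h2, h3⟩)
      · exact ⟨rfl, Nat.lt_succ_self _⟩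
      · exact ⟨h2, by omega⟩
  rw [h1, Finset.card_insert_of_notMem (by simp)]
  push_cast
  ring

theorem fr_le_Mk (k : Fin D) (j : Fin n) (hj : j ≠ b k) : fr b σ j (σ k : ℕ) ≤ Mk b σ k := by
  unfold Mk
  exact le_ciSup (f := fun j : {j : Fin n // j ≠ b k} => (before b σ k j : ℝ) / cnt b j)
    (Set.finite_range _).bddAbove ⟨j, hj⟩

theorem exists_Mk (hn : 2 ≤ n) (k : Fin D) : ∃ j, j ≠ b k ∧ Mk b σ k = fr b σ j (σ k : ℕ) := by
  have : Nontrivial (Fin n) := Fin.nontrivial_iff_two_le.2 hn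
  obtain ⟨j0, hj0⟩ := exists_ne (b k)
  have : Nonempty {j : Fin n // j ≠ b k} := ⟨⟨j0, hj0⟩⟩
  obtain ⟨j, hj⟩ := exists_eq_ciSup_of_finite
    (f := fun j : {j : Fin n // j ≠ b k} => (before b σ k j : ℝ) / cnt b j)
  exact ⟨j.1, j.2, hj.symm⟩

theorem Mk_le_one (hn : 2 ≤ n) (k : Fin D) : Mk b σ k ≤ 1 := by
  obtain ⟨j, -, h⟩ := exists_Mk b σ hn k
  rw [h]
  exact fr_le_one b σ j _

theorem main (hn : 2 ≤ n) (μ : ℕ) (hμ : 1 ≤ μ) (hc : ∀ j, μ ≤ cnt b j) (t : ℕ) (ht : t ≤ D) :
    ∀ i i' : Fin n, i ≠ i' →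
      1 - (∑ k ∈ Finset.univ.filter (fun k => (σ k : ℕ) < t), (1 - Mk b σ k)) / μ ≤
        (1 - fr b σ i t) * (1 - fr b σ i' t) := by
  induction t with
  | zero =>
    intro i i' _
    rw [fr_zero, fr_zero]
    simp
  | succ t ih =>
    have ht' : t < D := ht
    have ih' := ih ht'.le
    set k : Fin D := σ.symm ⟨t, ht'⟩ with hk
    have hσk : (σ k : ℕ) = t := by rw [hk, Equiv.apply_symm_apply]
    have hμ' : (0 : ℝ) < μ := by exact_mod_cast hμ
    have hsum : ∑ k ∈ Finset.univ.filter (fun k => (σ k : ℕ) < t + 1), (1 - Mk b σ k) =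
        ∑ k ∈ Finset.univ.filter (fun k => (σ k : ℕ) < t), (1 - Mk b σ k) + (1 - Mk b σ k) := by
      have h1 : Finset.univ.filter (fun k => (σ k : ℕ) < t + 1) =
          insert k (Finset.univ.filter (fun k => (σ k : ℕ) < t)) := by
        ext l
        simp only [Finset.mem_filter, Finset.mem_univ, true_and, Finset.mem_insert]
        constructor
        · intro h2
          rcases Nat.lt_succ_iff_lt_or_eq.1 h2 with h4 | h4
          · exact Or.inr h4
          · exact Or.inl (σ.injective (Fin.ext (h4.trans hσk.symm)))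
        · rintro (rfl | h2)
          · rw [hσk]; exact Nat.lt_succ_self _
          · omega
      rw [h1, Finset.sum_insert (by simp [hσk]), add_comm]
    have hM1 : 0 ≤ 1 - Mk b σ k := sub_nonneg.2 (Mk_le_one b σ hn k)
    have hcb : (μ : ℝ) ≤ cnt b (b k) := by exact_mod_cast hc (b k)
    have hdec : (1 - Mk b σ k) / cnt b (b k) ≤ (1 - Mk b σ k) / μ :=
      div_le_div_of_nonneg_left hM1 hμ' hcb
    have hnon : 0 ≤ (1 - Mk b σ k) / μ := by positivity
    -- a pair containing the block of `k`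
    have hpair : ∀ i, i ≠ b k →
        1 - (∑ k ∈ Finset.univ.filter (fun k => (σ k : ℕ) < t + 1), (1 - Mk b σ k)) / μ ≤
          (1 - fr b σ (b k) (t + 1)) * (1 - fr b σ i (t + 1)) := by
      intro i hi
      have e1 := fr_succ_eq b σ k
      have e2 := fr_succ_ne b σ k i hi
      have e3 := fr_le_Mk b σ k i hi
      obtain ⟨j, hj, e4⟩ := exists_Mk b σ hn k
      have e5 := fr_le_one b σ (b k) (t + 1)
      rw [hσk] at e1 e2 e3 e4
      have e6 := ih' (b k) j hj.symm
      rw [← e4] at e6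
      rw [hsum, add_div, e2]
      have e7 : (1 - fr b σ (b k) (t + 1)) * (1 - Mk b σ k) ≤
          (1 - fr b σ (b k) (t + 1)) * (1 - fr b σ i t) :=
        mul_le_mul_of_nonneg_left (by linarith) (by linarith)
      have e8 : (1 - fr b σ (b k) (t + 1)) * (1 - Mk b σ k) =
          (1 - fr b σ (b k) t) * (1 - Mk b σ k) - (1 - Mk b σ k) / cnt b (b k) := by
        rw [e1]
        ring
      linarith
    intro i i' hii
    by_cases h1 : i = b k
    · rw [h1]
      exact hpair i' (fun h => hii (h1.trans h.symm))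
    · by_cases h2 : i' = b k
      · rw [h2, mul_comm]
        exact hpair i h1
      · have e1 := fr_succ_ne b σ k i h1
        have e2 := fr_succ_ne b σ k i' h2
        rw [hσk] at e1 e2
        rw [e1, e2, hsum, add_div]
        have := ih' i i' hii
        linarith

end C5aux

theorem C5 : St_C5 := by
  intro D n μ b σ hn hμ hc
  have : Nontrivial (Fin n) := Fin.nontrivial_iff_two_le.2 hn
  obtain ⟨i, i', hii⟩ := exists_pair_ne (Fin n)
  have h1 := C5aux.main b σ hn μ hμ hc D le_rfl i i' hii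
  rw [C5aux.fr_last b σ i (hμ.trans (hc i)), sub_self, zero_mul] at h1
  have h2 : Finset.univ.filter (fun k => (σ k : ℕ) < D) = Finset.univ := by
    rw [Finset.filter_eq_self]
    intro k _
    exact (σ k).2
  rw [h2, Finset.sum_sub_distrib] at h1
  simp only [Finset.sum_const, Finset.card_univ, Fintype.card_fin, nsmul_eq_mul, mul_one] at h1
  have hμ' : (0 : ℝ) < μ := by exact_mod_cast hμ
  have h3 : 1 ≤ ((D : ℝ) - ∑ k, C5aux.Mk b σ k) / μ := by linarith
  rw [le_div_iff₀ hμ'] at h3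
  show ∑ k, C5aux.Mk b σ k ≤ (D : ℝ) - μ
  linarith

end H947TP
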