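import Pool.Agent.H947R2.TP.Stubs

/-!
# V3: lower bound for the density of perturbed cubic lattices
-/

set_option autoImplicit false

open MeasureTheory Filter Topology Set
open scoped ENNReal

namespace H947TP

namespace V3aux

theorem eball_add {d : ℕ} (hd : 1 ≤ d) {R m : ℝ} (hR : 0 ≤ R) (hm : 0 ≤ m) {x z : Fin d → ℝ}
    (hx : x ∈ eball d R) (hz : ∀ i, |z i| ≤ m) : x + z ∈ eball d (R + d * m) := by
  have hx' : ∑ i, x i ^ 2 ≤ R ^ 2 := hx
  have hd' : (1 : ℝ) ≤ d := by exact_mod_cast hd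
  have hz2 : ∑ i, z i ^ 2 ≤ (d * m) ^ 2 := by
    calc ∑ i, z i ^ 2 ≤ ∑ _i : Fin d, m ^ 2 := by
          refine Finset.sum_le_sum fun i _ => ?_
          rw [← sq_abs]
          exact pow_le_pow_left₀ (abs_nonneg _) (hz i) 2
      _ = d * m ^ 2 := by simp
      _ ≤ (d * m) ^ 2 := by
          have h2 : 0 ≤ m ^ 2 := sq_nonneg m
          nlinarith
  have hxz : (∑ i, x i * z i) ^ 2 ≤ (R * (d * m)) ^ 2 := by
    refine (Finset.sum_mul_sq_le_sq_mul_sq Finset.univ x z).trans ?_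
    rw [mul_pow]
    exact mul_le_mul hx' hz2 (Finset.sum_nonneg fun i _ => sq_nonneg _) (sq_nonneg R)
  have hxz' : ∑ i, x i * z i ≤ R * (d * m) :=
    (abs_le_of_sq_le_sq' hxz (by positivity)).2
  show ∑ i, (x + z) i ^ 2 ≤ (R + d * m) ^ 2
  have h1 : ∑ i, (x + z) i ^ 2 = ∑ i, x i ^ 2 + 2 * ∑ i, x i * z i + ∑ i, z i ^ 2 := by
    rw [Finset.mul_sum, ← Finset.sum_add_distrib, ← Finset.sum_add_distrib]
    refine Finset.sum_congr rfl fun i _ => ?_
    simp only [Pi.add_apply]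
    ring
  rw [h1]
  nlinarith

theorem vol_tr {d : ℕ} (x : Fin d → ℝ) (K : Set (Fin d → ℝ)) : volume (tr x K) = volume K := by
  unfold tr
  rw [Set.image_add_left, measure_preimage_add]

theorem vol_int {d : ℕ} (x : Fin d → ℝ) (K : Set (Fin d → ℝ)) (hK : Convex ℝ K) :
    volume (interior (tr x K)) = volume K := by
  have h1 : Convex ℝ (tr x K) := hK.translate x
  have h2 : volume (frontier (tr x K)) = 0 := h1.addHaar_frontier volume
  have h3 := interior_ae_eq_of_null_frontier h2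
  rw [measure_congr h3, vol_tr]

/-- the cells -/
def cell {d : ℕ} (s : ℝ) (Z : Fin d → ℤ) : Set (Fin d → ℝ) :=
  Set.pi univ fun i => Ico (s * Z i) (s * Z i + s)

theorem vol_cell {d : ℕ} (s : ℝ) (hs : 0 < s) (Z : Fin d → ℤ) :
    volume (cell s Z) = ENNReal.ofReal (s ^ d) := by
  unfold cell
  rw [Real.volume_pi_Ico]
  simp only [add_sub_cancel_left]
  rw [Finset.prod_const, Finset.card_univ, Fintype.card_fin, ENNReal.ofReal_pow hs.le]

theorem mem_cell {d : ℕ} (s : ℝ) (hs : 0 < s) (x : Fin d → ℝ) :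
    x ∈ cell s (fun i => ⌊x i / s⌋) := by
  intro i _
  have h1 := Int.floor_le (x i / s)
  have h2 := Int.lt_floor_add_one (x i / s)
  rw [le_div_iff₀ hs] at h1
  rw [div_lt_iff₀ hs] at h2
  constructor
  · linarith
  · linarith

theorem fin_cells {d : ℕ} (s : ℝ) (hs : 0 < s) (R : ℝ) :
    {Z : Fin d → ℤ | (cell s Z ∩ eball d R).Nonempty}.Finite := by
  obtain ⟨N, hN⟩ := exists_nat_ge ((|R| + s) / s)
  refine (Set.finite_Icc (fun _ : Fin d => -(N : ℤ)) (fun _ => (N : ℤ))).subset ?_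
  rintro Z ⟨x, hx, hxR⟩
  have hxR' : ∑ i, x i ^ 2 ≤ R ^ 2 := hxR
  have hc : ∀ i, |x i| ≤ |R| := by
    intro i
    rw [← sq_le_sq₀ (abs_nonneg _) (abs_nonneg _), sq_abs, sq_abs]
    exact (Finset.single_le_sum (f := fun i => x i ^ 2) (fun i _ => sq_nonneg _)
      (Finset.mem_univ i)).trans hxR'
  have hN' : |R| + s ≤ N * s := by rwa [div_le_iff₀ hs] at hN
  have hZ : ∀ i, -(N : ℝ) ≤ Z i ∧ (Z i : ℝ) ≤ N := by
    intro i
    have h1 := hx i (mem_univ i)
    have h2 := abs_le.1 (hc i)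
    have h3 : s * Z i ≤ x i := h1.1
    have h4 : x i < s * Z i + s := h1.2
    constructor
    · by_contra hcon
      push Not at hcon
      nlinarith
    · by_contra hcon
      push Not at hcon
      nlinarith
  rw [Set.mem_Icc, Pi.le_def, Pi.le_def]
  exact ⟨fun i => by exact_mod_cast (hZ i).1, fun i => by exact_mod_cast (hZ i).2⟩

theorem key {d : ℕ} (K : Set (Fin d → ℝ)) (s C : ℝ) (τ : (Fin d → ℤ) → (Fin d → ℝ))
    (hd : 1 ≤ d) (hK : IsCompact K) (hconv : Convex ℝ K) (hs : 0 < s)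
    (hτ : ∀ Z i, |τ Z i - s * Z i| ≤ C) (hinj : Function.Injective τ)
    (hpack : IsPacking K (range τ)) :
    ∃ c : ℝ, 0 ≤ c ∧ ∀ R : ℝ, 0 < R →
      volume K / ENNReal.ofReal (s ^ d) * volume (eball d R) ≤
        volume (eball d (R + c) ∩ ⋃ x ∈ range τ, tr x K) := by
  classical
  obtain ⟨B, hB⟩ := hK.isBounded.exists_norm_le
  have hC : 0 ≤ C := (abs_nonneg _).trans (hτ 0 ⟨0, hd⟩)
  have hm : 0 ≤ C + s + |B| := by positivity
  refine ⟨d * (C + s + |B|), by positivity, fun R hR => ?_⟩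
  set I : Finset (Fin d → ℤ) := (fin_cells (d := d) s hs R).toFinset with hI
  have hmemI : ∀ Z, Z ∈ I ↔ (cell s Z ∩ eball d R).Nonempty := by
    intro Z
    rw [hI, Set.Finite.mem_toFinset]
    exact Iff.rfl
  have hS0 : ENNReal.ofReal (s ^ d) ≠ 0 := by
    rw [Ne, ENNReal.ofReal_eq_zero, not_le]
    positivity
  have hST : ENNReal.ofReal (s ^ d) ≠ ⊤ := ENNReal.ofReal_ne_top
  have hcov : volume (eball d R) ≤ (I.card : ℝ≥0∞) * ENNReal.ofReal (s ^ d) := by
    have h1 : eball d R ⊆ ⋃ Z ∈ I, cell s Z := by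
      intro x hx
      rw [mem_iUnion₂]
      exact ⟨_, (hmemI _).2 ⟨x, mem_cell s hs x, hx⟩, mem_cell s hs x⟩
    calc volume (eball d R) ≤ volume (⋃ Z ∈ I, cell s Z) := measure_mono h1
      _ ≤ ∑ Z ∈ I, volume (cell s Z) := measure_biUnion_finset_le _ _
      _ = (I.card : ℝ≥0∞) * ENNReal.ofReal (s ^ d) := by
        rw [Finset.sum_congr rfl fun Z _ => vol_cell s hs Z, Finset.sum_const, nsmul_eq_mul]
  have hsub : ∀ Z ∈ I, tr (τ Z) K ⊆ eball d (R + d * (C + s + |B|)) := by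
    intro Z hZ y hy
    obtain ⟨x, hx, hxR⟩ := (hmemI Z).1 hZ
    obtain ⟨k, hk, rfl⟩ := hy
    have h2 : (fun z => τ Z + z) k = x + (τ Z + k - x) := by
      simp
    rw [h2]
    refine eball_add hd hR.le hm hxR fun i => ?_
    have h3 := hx i (mem_univ i)
    have h4 : s * Z i ≤ x i := h3.1
    have h5 : x i < s * Z i + s := h3.2
    have h6 : |k i| ≤ |B| := by
      have h7 := norm_le_pi_norm k i
      rw [Real.norm_eq_abs] at h7
      exact h7.trans ((hB k hk).trans (le_abs_self B))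
    have h8 := abs_le.1 (hτ Z i)
    have h9 := abs_le.1 h6
    simp only [Pi.add_apply, Pi.sub_apply]
    rw [abs_le]
    constructor <;> linarith [h8.1, h8.2, h9.1, h9.2]
  have hbig : (I.card : ℝ≥0∞) * volume K ≤
      volume (eball d (R + d * (C + s + |B|)) ∩ ⋃ x ∈ range τ, tr x K) := by
    have h1 : (⋃ Z ∈ I, interior (tr (τ Z) K)) ⊆
        eball d (R + d * (C + s + |B|)) ∩ ⋃ x ∈ range τ, tr x K := by
      intro y hy
      rw [mem_iUnion₂] at hy
      obtain ⟨Z, hZ, hyZ⟩ := hy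
      have hy' := interior_subset hyZ
      refine ⟨hsub Z hZ hy', ?_⟩
      rw [mem_iUnion₂]
      exact ⟨τ Z, ⟨Z, rfl⟩, hy'⟩
    have h2 : volume (⋃ Z ∈ I, interior (tr (τ Z) K)) = (I.card : ℝ≥0∞) * volume K := by
      rw [measure_biUnion_finset]
      · rw [Finset.sum_congr rfl fun Z _ => vol_int (τ Z) K hconv, Finset.sum_const, nsmul_eq_mul]
      · intro Z _ Z' _ hne
        exact hpack _ ⟨Z, rfl⟩ _ ⟨Z', rfl⟩ (hinj.ne hne)
      · intro Z _
        exact isOpen_interior.measurableSet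
    rw [← h2]
    exact measure_mono h1
  calc volume K / ENNReal.ofReal (s ^ d) * volume (eball d R)
      ≤ volume K / ENNReal.ofReal (s ^ d) * ((I.card : ℝ≥0∞) * ENNReal.ofReal (s ^ d)) :=
        mul_le_mul_right hcov _
    _ = (I.card : ℝ≥0∞) * (volume K / ENNReal.ofReal (s ^ d) * ENNReal.ofReal (s ^ d)) := by ring
    _ = (I.card : ℝ≥0∞) * volume K := by rw [ENNReal.div_mul_cancel hS0 hST]
    _ ≤ _ := hbig

end V3aux

theorem V3 (hV1 : St_V1) : St_V3 := by
  intro d K s C τ hd hK hconv hs hτ hinj hpack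
  obtain ⟨c, hc, hkey⟩ := V3aux.key K s C τ hd hK hconv hs hτ hinj hpack
  obtain ⟨hvol, htend⟩ := hV1 d c hd hc
  have hinv := tendsto_inv_iff.2 htend
  rw [inv_one] at hinv
  have hmul := ENNReal.Tendsto.const_mul (a := volume K / ENNReal.ofReal (s ^ d)) hinv
    (Or.inl one_ne_zero)
  rw [mul_one] at hmul
  have hshift : density K (range τ) = limsup (fun R : ℝ =>
      volume (eball d (R + c) ∩ ⋃ x ∈ range τ, tr x K) / volume (eball d (R + c))) atTop := by
    unfold density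
    have h1 : map (fun R : ℝ => R + c) atTop = atTop := (OrderIso.addRight c).map_atTop
    conv_lhs => rw [← h1]
    rw [limsup, limsup, map_map]
    rfl
  rw [hshift, ← hmul.limsup_eq]
  refine limsup_le_limsup ?_
  filter_upwards [eventually_gt_atTop (0 : ℝ)] with R hR
  have h1 := hvol R hR
  have h2 := hvol (R + c) (by linarith)
  rw [ENNReal.inv_div (Or.inl h1.2) (Or.inl h1.1), ← mul_div_assoc]
  exact ENNReal.div_le_div_right (hkey R hR) _

end H947TP
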